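import Pool.Agent.Lib_helper65.RBO.Defs

/-!
# The oscillating set is first-order definable from the basin, `a + b ≥ 8`
-/

set_option autoImplicit false

namespace Pool.Agent.Lib_helper65.RBO

open Filter Topology MvPolynomial
open Pool.Agent.Lib_helper65.RB

/-- The relation `(p_1, ..., p_b') ∈ Red` is first-order definable from the basin. -/
theorem d8_red {a' b' d k l : ℕ} (ha : Odd a') (hb : Odd b') (hab : a' < b')
    (hc : Nat.Coprime a' b') (hd : 0 < d) (hk : k + 1 = d * a') (hl : l + 1 = d * b')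
    (G : Fin b' → MvPolynomial ℕ ℝ) :
    FO (BasinM k l l) {x | (fun j => eval x (G j)) ∈ Red a' b'} := by
  let f : Fin (l + 1) → MvPolynomial (Fin b') ℝ := fun i => if h : d ∣ (i : ℕ) then
    X ⟨(i : ℕ) / d, div_lt_aux i.2 hl⟩ else C (√2)
  let g : Fin (l + 1) → MvPolynomial ℕ ℝ := fun i => if h : d ∣ (i : ℕ) then
    G ⟨(i : ℕ) / d, div_lt_aux i.2 hl⟩ else C (√2)
  have h1 := slice_eq ha hb hab hc hd hk hl f (fun i => rfl)
  have h2 : {x : ℕ → ℝ | (fun j => eval x (G j)) ∈ Red a' b'} =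
      {x | (fun i => eval x (g i)) ∈ BasinM k l l} := by
    ext x
    rw [← h1]
    change (fun i => eval (fun j => eval x (G j)) (f i)) ∈ BasinM k l l ↔
      (fun i => eval x (g i)) ∈ BasinM k l l
    have h3 : (fun i => eval (fun j => eval x (G j)) (f i)) = fun i => eval x (g i) := by
      funext i
      simp only [f, g]
      split_ifs
      · rw [eval_X]
      · rw [eval_C, eval_C]
    rw [h3]
  rw [h2]
  exact FO.mem g

theorem d8_pos {n : ℕ} {B : Set (Fin n → ℝ)} (p : MvPolynomial ℕ ℝ) (f : (ℕ → ℝ) → ℝ)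
    (h : ∀ x, eval x p = f x) : FO B {x | 0 < f x} := by
  have h1 : {x : ℕ → ℝ | 0 < f x} = {x | 0 < eval x p} := by
    ext x
    change 0 < f x ↔ 0 < eval x p
    rw [h]
  rw [h1]
  exact FO.pos p

theorem d8_eq {n : ℕ} {B : Set (Fin n → ℝ)} (p : MvPolynomial ℕ ℝ) (f : (ℕ → ℝ) → ℝ)
    (h : ∀ x, eval x p = f x) : FO B {x | f x = 0} := by
  have h1 : {x : ℕ → ℝ | f x = 0} = {x | 0 < eval x p}ᶜ ∩ {x | 0 < eval x (-p)}ᶜ := by
    ext x
    change f x = 0 ↔ ¬ 0 < eval x p ∧ ¬ 0 < eval x (-p)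
    rw [map_neg, h]
    constructor
    · intro h2
      rw [h2]
      simp
    · rintro ⟨h2, h3⟩
      linarith
  rw [h1]
  exact (FO.pos p).compl.inter (FO.pos (-p)).compl

/-- The `y`-data of `c` times the run data. -/
noncomputable def runF (a b : ℕ) (A B I t T c D : ℝ) (j : Fin b) : ℝ :=
  if (j : ℕ) = b - 1 then c * (t * A) else if (j : ℕ) = b - 1 - a then 2 * (D * T)
  else if (j : ℕ) = a - 1 then c * (t * B) else if (j : ℕ) = 2 * a - 1 then D * T * I
  else if Even (j : ℕ) then c else 2 * D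

theorem runF_mem {a b : ℕ} (ha : Odd a) (hb : Odd b) (hab : a < b) (hc : Nat.Coprime a b)
    {A B t c : ℝ} (hA : 0 < A) (hB : 0 < B) (ht : 0 < t) (hc0 : 0 < c) :
    runF a b A B (1 / B) t (1 / t) c (1 / c) ∈ Red a b ↔ c * LL a b (runv a b t A B) = √2 := by
  have ha0 := ha.pos
  have hb0 := hb.pos
  have hv : ∀ n, 0 < runv a b t A B n := by
    intro n
    unfold runv
    split_ifs <;> positivity
  have hpos : ∀ i, 0 < runF a b A B (1 / B) t (1 / t) c (1 / c) i := by
    intro i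
    unfold runF
    split_ifs <;> positivity
  have h1 : LL a b (ww (runF a b A B (1 / B) t (1 / t) c (1 / c))) =
      c * LL a b (runv a b t A B) := by
    rw [← LL_smul ha0 hab.le hc (fun n _ => hv n) hc0]
    apply LL_congr ha0 hab.le hc (fun n _ => ww_pos hpos n)
    intro n hn
    unfold ww runF runv
    rw [dif_pos hn]
    by_cases h1 : n = b - 1
    · have he : Even n := by
        obtain ⟨s, hs⟩ := hb
        exact ⟨s, by omega⟩
      simp only [h1, if_true]
      rw [if_pos (h1 ▸ he)]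
    · simp only [h1, if_false]
      by_cases h2 : n = b - 1 - a
      · have ho : ¬ Even n := by
          rw [Nat.not_even_iff_odd]
          obtain ⟨s, hs⟩ := hb
          obtain ⟨u, hu⟩ := ha
          exact ⟨s - u - 1, by omega⟩
        rw [if_neg ho]
        simp only [h2, if_true]
        field_simp
      · simp only [h2, if_false]
        by_cases h3 : n = a - 1
        · have he : Even n := by
            obtain ⟨u, hu⟩ := ha
            exact ⟨u, by omega⟩
          rw [if_pos he]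
          simp only [h3, if_true]
        · simp only [h3, if_false]
          by_cases h4 : n = 2 * a - 1
          · have ho : ¬ Even n := by
              rw [Nat.not_even_iff_odd]
              exact ⟨a - 1, by omega⟩
            rw [if_neg ho]
            simp only [h4, if_true]
            field_simp
          · simp only [h4, if_false]
            by_cases h5 : Even n
            · simp only [h5, if_true]
              rw [mul_one]
            · simp only [h5, if_false]
              field_simp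
  constructor
  · rintro ⟨-, h2⟩
    rw [← h1]
    exact h2
  · intro h2
    exact ⟨hpos, by rw [h1]; exact h2⟩

/-- The comparison of the limits in terms of the reduced basin. -/
theorem lt_iff {a b : ℕ} (ha : Odd a) (hb : Odd b) (hab : a < b) (hc : Nat.Coprime a b)
    {A B A' B' t : ℝ} (hA : 0 < A) (hB : 0 < B) (hA' : 0 < A') (hB' : 0 < B') (ht : 0 < t) :
    LL a b (runv a b t A B) < LL a b (runv a b t A' B') ↔
      ∃ T c D c' D' I I' : ℝ, t * T - 1 = 0 ∧ c * D - 1 = 0 ∧ c' * D' - 1 = 0 ∧ B * I - 1 = 0 ∧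
        B' * I' - 1 = 0 ∧ 0 < c' ∧ 0 < c - c' ∧ runF a b A B I t T c D ∈ Red a b ∧
        runF a b A' B' I' t T c' D' ∈ Red a b := by
  have ha0 := ha.pos
  have hpos : ∀ {A B : ℝ}, 0 < A → 0 < B → 0 < LL a b (runv a b t A B) := by
    intro A B hA hB
    apply LL_pos ha0 hab.le hc
    intro n _
    unfold runv
    split_ifs <;> positivity
  have h1 := hpos hA hB
  have h2 := hpos hA' hB'
  have hs : (0 : ℝ) < √2 := by positivity
  have hinv : ∀ {x y : ℝ}, 0 < x → x * y - 1 = 0 → y = 1 / x := by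
    intro x y hx hxy
    rw [eq_div_iff hx.ne']
    linarith
  constructor
  · intro h
    have hc1 : 0 < √2 / LL a b (runv a b t A B) := div_pos hs h1
    have hc2 : 0 < √2 / LL a b (runv a b t A' B') := div_pos hs h2
    refine ⟨1 / t, √2 / LL a b (runv a b t A B), 1 / (√2 / LL a b (runv a b t A B)),
      √2 / LL a b (runv a b t A' B'), 1 / (√2 / LL a b (runv a b t A' B')), 1 / B, 1 / B', ?_, ?_,
      ?_, ?_, ?_, hc2, ?_, ?_, ?_⟩
    · rw [mul_one_div_cancel ht.ne', sub_self]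
    · rw [mul_one_div_cancel hc1.ne', sub_self]
    · rw [mul_one_div_cancel hc2.ne', sub_self]
    · rw [mul_one_div_cancel hB.ne', sub_self]
    · rw [mul_one_div_cancel hB'.ne', sub_self]
    · rw [sub_pos]
      exact div_lt_div_of_pos_left hs h1 h
    · rw [runF_mem ha hb hab hc hA hB ht hc1]
      exact div_mul_cancel₀ _ h1.ne'
    · rw [runF_mem ha hb hab hc hA' hB' ht hc2]
      exact div_mul_cancel₀ _ h2.ne'
  · rintro ⟨T, c, D, c', D', I, I', e1, e2, e3, e4, e5, hc', hcc, hR, hR'⟩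
    have hc0 : 0 < c := by linarith
    rw [hinv ht e1, hinv hc0 e2, hinv hB e4, runF_mem ha hb hab hc hA hB ht hc0] at hR
    rw [hinv ht e1, hinv hc' e3, hinv hB' e5, runF_mem ha hb hab hc hA' hB' ht hc'] at hR'
    by_contra hcon
    have h3 : c' * LL a b (runv a b t A' B') < c * LL a b (runv a b t A B) :=
      lt_of_lt_of_le (mul_lt_mul_of_pos_right (by linarith) h2)
        (mul_le_mul_of_nonneg_left (not_lt.mp hcon) hc0.le)
    rw [hR, hR'] at h3
    exact lt_irrefl _ h3

section fo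

variable {a' b' d k l : ℕ} (ha : Odd a') (hb : Odd b') (hab : a' < b')
  (hc : Nat.Coprime a' b') (hd : 0 < d) (hk : k + 1 = d * a') (hl : l + 1 = d * b')

include ha hb hab hc hd hk hl in
/-- Membership of the run data in the reduced basin. -/
theorem fo_run (α α₀ β β₀ : ℝ) (iI it iT ic iD : ℕ) :
    FO (BasinM k l l) {x | runF a' b' (α * x 0 + α₀) (β * x 0 + β₀) (x iI) (x it) (x iT) (x ic)
      (x iD) ∈ Red a' b'} := by
  let G : Fin b' → MvPolynomial ℕ ℝ := fun j =>
    if (j : ℕ) = b' - 1 then X ic * (X it * (C α * X 0 + C α₀))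
    else if (j : ℕ) = b' - 1 - a' then C 2 * (X iD * X iT)
    else if (j : ℕ) = a' - 1 then X ic * (X it * (C β * X 0 + C β₀))
    else if (j : ℕ) = 2 * a' - 1 then X iD * X iT * X iI
    else if Even (j : ℕ) then X ic else C 2 * X iD
  have h1 : {x : ℕ → ℝ | runF a' b' (α * x 0 + α₀) (β * x 0 + β₀) (x iI) (x it) (x iT) (x ic)
      (x iD) ∈ Red a' b'} = {x | (fun j => eval x (G j)) ∈ Red a' b'} := by
    ext x
    have h2 : runF a' b' (α * x 0 + α₀) (β * x 0 + β₀) (x iI) (x it) (x iT) (x ic) (x iD) =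
        fun j => eval x (G j) := by
      funext j
      simp only [runF, G]
      split_ifs <;> simp
    change _ ∈ Red a' b' ↔ _ ∈ Red a' b'
    rw [h2]
  rw [h1]
  exact d8_red ha hb hab hc hd hk hl G

include ha hb hab hc hd hk hl in
/-- The comparison set with the existential variables `3, ..., 9`. -/
theorem fo_lt (α α₀ β β₀ α' α₀' β' β₀' : ℝ) :
    FO (BasinM k l l) {x | ∃ T c D c' D' I I' : ℝ, x 2 * T - 1 = 0 ∧ c * D - 1 = 0 ∧
      c' * D' - 1 = 0 ∧ (β * x 0 + β₀) * I - 1 = 0 ∧ (β' * x 0 + β₀') * I' - 1 = 0 ∧ 0 < c' ∧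
      0 < c - c' ∧ runF a' b' (α * x 0 + α₀) (β * x 0 + β₀) I (x 2) T c D ∈ Red a' b' ∧
      runF a' b' (α' * x 0 + α₀') (β' * x 0 + β₀') I' (x 2) T c' D' ∈ Red a' b'} := by
  have h0 := (d8_eq (B := BasinM k l l) (X 2 * X 3 - 1) (fun x => x 2 * x 3 - 1) (by simp)).inter
    ((d8_eq (X 4 * X 5 - 1) (fun x => x 4 * x 5 - 1) (by simp)).inter
    ((d8_eq (X 6 * X 7 - 1) (fun x => x 6 * x 7 - 1) (by simp)).inter
    ((d8_eq ((C β * X 0 + C β₀) * X 8 - 1) (fun x => (β * x 0 + β₀) * x 8 - 1) (by simp)).inter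
    ((d8_eq ((C β' * X 0 + C β₀') * X 9 - 1) (fun x => (β' * x 0 + β₀') * x 9 - 1) (by simp)).inter
    ((d8_pos (X 6) (fun x => x 6) (by simp)).inter
    ((d8_pos (X 4 - X 6) (fun x => x 4 - x 6) (by simp)).inter
    ((fo_run ha hb hab hc hd hk hl α α₀ β β₀ 8 2 3 4 5).inter
    (fo_run ha hb hab hc hd hk hl α' α₀' β' β₀' 9 2 3 6 7))))))))
  have h1 := ((((((h0.ex 9).ex 8).ex 7).ex 6).ex 5).ex 4).ex 3
  refine Eq.mp (congrArg _ ?_) h1
  ext x
  simp only [Set.mem_ofPred_eq, Set.mem_inter_iff, Function.update_self]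
  simp

end fo

/-- BLOCK DEF8. -/
theorem def8 {a' b' d k l : ℕ} (ha : Odd a') (hb : Odd b') (hab : a' < b')
    (hc : Nat.Coprime a' b') (hd : 0 < d) (hk : k + 1 = d * a') (hl : l + 1 = d * b')
    (_ : 8 ≤ a' + b') : DefinableFrom (BasinM k l l) (ZZ a' b') := by
  have h1 := fo_lt ha hb hab hc hd hk hl (√(3 / 2) / 2) 0 (√(3 / 2) / 2) (√(3 / 2)) (√2 / 2) 0
    (√2 / 2) 1
  have h2 := ((d8_pos (B := BasinM k l l) (X 2) (fun x => x 2) (by simp)).inter
    ((d8_pos (X 1 - X 2) (fun x => x 1 - x 2) (by simp)).inter h1.compl)).ex 2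
  have h3 := (d8_pos (B := BasinM k l l) (X 0) (fun x => x 0) (by simp)).inter
    (((d8_pos (B := BasinM k l l) (X 1) (fun x => x 1) (by simp)).inter h2.compl).ex 1)
  unfold DefinableFrom
  refine Eq.mp (congrArg _ ?_) h3
  ext x
  simp only [Set.mem_ofPred_eq, Set.mem_inter_iff, Set.mem_compl_iff, Function.update_self]
  simp only [ne_eq, OfNat.zero_ne_ofNat, not_false_eq_true, Function.update_of_ne, zero_ne_one,
    OfNat.one_ne_ofNat, Function.update_self]
  have key : ∀ e t : ℝ, 0 < e → 0 < t → ((∃ T c D c' D' I I' : ℝ, t * T - 1 = 0 ∧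
      c * D - 1 = 0 ∧ c' * D' - 1 = 0 ∧ (√(3 / 2) / 2 * e + √(3 / 2)) * I - 1 = 0 ∧
      (√2 / 2 * e + 1) * I' - 1 = 0 ∧ 0 < c' ∧ 0 < c - c' ∧
      runF a' b' (√(3 / 2) / 2 * e + 0) (√(3 / 2) / 2 * e + √(3 / 2)) I t T c D ∈ Red a' b' ∧
      runF a' b' (√2 / 2 * e + 0) (√2 / 2 * e + 1) I' t T c' D' ∈ Red a' b') ↔
      LL a' b' (runv a' b' t (√(3 / 2) * (e / 2)) (√(3 / 2) * (1 + e / 2))) <
        LL a' b' (runv a' b' t (√2 * e / 2) (1 + √2 * e / 2))) := by
    intro e t he ht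
    have e1 : √(3 / 2) * (e / 2) = √(3 / 2) / 2 * e + 0 := by ring
    have e2 : √(3 / 2) * (1 + e / 2) = √(3 / 2) / 2 * e + √(3 / 2) := by ring
    have e3 : √2 * e / 2 = √2 / 2 * e + 0 := by ring
    have e4 : 1 + √2 * e / 2 = √2 / 2 * e + 1 := by ring
    have s1 : (0 : ℝ) < √(3 / 2) := by positivity
    have s2 : (0 : ℝ) < √2 := by positivity
    rw [lt_iff ha hb hab hc (by positivity) (by positivity) (by positivity) (by positivity) ht,
      e1, e2, e4, e3]
  constructor
  · rintro ⟨h0, t0, ht0, h⟩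
    refine ⟨h0, t0, ht0, fun t ht htt => ?_⟩
    by_contra hcon
    exact h ⟨t, ht, by linarith, fun hE => hcon ((key (x 0) t h0 ht).1 hE)⟩
  · rintro ⟨h0, t0, ht0, h⟩
    exact ⟨h0, t0, ht0, fun ⟨t, ht, htt, hE⟩ =>
      hE ((key (x 0) t h0 ht).2 (h t ht (by linarith)))⟩

end Pool.Agent.Lib_helper65.RBO
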