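import Mathlib

/-!
# The ratio `1 : 3`: uniform attraction of the products `x_n x_{n+d}` to `2`
-/

set_option autoImplicit false

namespace Pool.Agent.Lib_helper83.RBO

/-- The recursion for the products: uniform bounds. -/
theorem att_bounds {d : ℕ} {p : ℕ → ℝ} (hp : ∀ n, 0 < p n)
    (h : ∀ n, p (n + 2 * d) = 1 + p (n + d) / p n) :
    (∀ n, 2 * d ≤ n → 1 < p n) ∧ (∀ n, p (n + 3 * d) = 1 + 1 / p (n + d) + 1 / p n) ∧
      (∀ n, 5 * d ≤ n → p n ≤ 3) ∧ (∀ n, 8 * d ≤ n → 5 / 3 ≤ p n) := by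
  have h1 : ∀ n, 2 * d ≤ n → 1 < p n := by
    intro n hn
    obtain ⟨m, rfl⟩ : ∃ m, n = m + 2 * d := ⟨n - 2 * d, by omega⟩
    rw [h m]
    have := div_pos (hp (m + d)) (hp m)
    linarith
  have h2 : ∀ n, p (n + 3 * d) = 1 + 1 / p (n + d) + 1 / p n := by
    intro n
    have e1 : n + 3 * d = n + d + 2 * d := by ring
    have e2 : n + d + d = n + 2 * d := by ring
    rw [e1, h (n + d), e2, h n]
    have := hp n
    have := hp (n + d)
    field_simp
    ring
  have h3 : ∀ n, 5 * d ≤ n → p n ≤ 3 := by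
    intro n hn
    obtain ⟨m, rfl⟩ : ∃ m, n = m + 3 * d := ⟨n - 3 * d, by omega⟩
    rw [h2 m]
    have a1 : 1 / p (m + d) ≤ 1 := by
      rw [div_le_one (hp _)]
      exact (h1 _ (by omega)).le
    have a2 : 1 / p m ≤ 1 := by
      rw [div_le_one (hp _)]
      exact (h1 _ (by omega)).le
    linarith
  refine ⟨h1, h2, h3, ?_⟩
  intro n hn
  obtain ⟨m, rfl⟩ : ∃ m, n = m + 3 * d := ⟨n - 3 * d, by omega⟩
  rw [h2 m]
  have a1 : 1 / 3 ≤ 1 / p (m + d) := one_div_le_one_div_of_le (hp _) (h3 _ (by omega))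
  have a2 : 1 / 3 ≤ 1 / p m := one_div_le_one_div_of_le (hp _) (h3 _ (by omega))
  linarith

/-- Uniform attraction. -/
theorem att_unif {d : ℕ} {p : ℕ → ℝ} (hp : ∀ n, 0 < p n)
    (h : ∀ n, p (n + 2 * d) = 1 + p (n + d) / p n) (k : ℕ) :
    ∀ n, (8 + 3 * k) * d ≤ n → |p n - 2| ≤ (3 / 5) ^ k := by
  obtain ⟨-, h2, h3, h4⟩ := att_bounds hp h
  induction k with
  | zero =>
    intro n hn
    rw [pow_zero, abs_le]
    have a1 := h4 n (by omega)
    have a2 := h3 n (by omega)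
    constructor <;> linarith
  | succ k ih =>
    intro n hn
    have hn' : (8 + 3 * k) * d + 3 * d ≤ n := by
      have e : (8 + 3 * (k + 1)) * d = (8 + 3 * k) * d + 3 * d := by ring
      omega
    obtain ⟨m, rfl⟩ : ∃ m, n = m + 3 * d := ⟨n - 3 * d, by omega⟩
    have hm : (8 + 3 * k) * d ≤ m := by omega
    have h8 : 8 * d ≤ m := le_trans (Nat.mul_le_mul_right d (by omega)) hm
    have b1 := ih (m + d) (by omega)
    have b2 := ih m hm
    have c1 := h4 (m + d) (by omega)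
    have c2 := h4 m h8
    have key : ∀ y : ℝ, 5 / 3 ≤ y → |y - 2| ≤ (3 / 5) ^ k →
        |1 / y - 1 / 2| ≤ (3 / 5) ^ (k + 1) / 2 := by
      intro y hy hyk
      have hy0 : 0 < y := by linarith
      have e1 : 1 / y - 1 / 2 = -((y - 2) / (2 * y)) := by
        field_simp
        ring
      rw [e1, abs_neg, abs_div, abs_of_pos (by positivity : (0 : ℝ) < 2 * y), pow_succ,
        div_le_div_iff₀ (by positivity) (by norm_num)]
      have hk : (0 : ℝ) ≤ (3 / 5) ^ k := by positivity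
      nlinarith [abs_nonneg (y - 2), mul_le_mul_of_nonneg_left hy hk]
    have d1 := key _ c1 b1
    have d2 := key _ c2 b2
    rw [h2 m]
    have e2 : 1 + 1 / p (m + d) + 1 / p m - 2 = (1 / p (m + d) - 1 / 2) + (1 / p m - 1 / 2) := by
      ring
    rw [e2]
    calc |(1 / p (m + d) - 1 / 2) + (1 / p m - 1 / 2)| ≤
          |1 / p (m + d) - 1 / 2| + |1 / p m - 1 / 2| := abs_add_le _ _
      _ ≤ (3 / 5) ^ (k + 1) / 2 + (3 / 5) ^ (k + 1) / 2 := add_le_add d1 d2
      _ = (3 / 5) ^ (k + 1) := by ring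

/-- The products of a positive solution of `x_{n+3d} = 1/x_{n+2d} + 1/x_n`. -/
theorem att_sol {d : ℕ} (hd : 0 < d) {x : ℕ → ℝ} (h0 : ∀ n < 3 * d, 0 < x n)
    (h : ∀ n, x (n + 3 * d) = 1 / x (n + 2 * d) + 1 / x n) :
    (∀ n, 0 < x n) ∧ ∀ k n, (8 + 3 * k) * d ≤ n → |x n * x (n + d) - 2| ≤ (3 / 5) ^ k := by
  have hpos : ∀ n, 0 < x n := by
    intro n
    induction n using Nat.strong_induction_on with
    | _ n ih =>
      by_cases hn : n < 3 * d
      · exact h0 n hn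
      · obtain ⟨m, rfl⟩ : ∃ m, n = m + 3 * d := ⟨n - 3 * d, by omega⟩
        rw [h m]
        have := ih (m + 2 * d) (by omega)
        have := ih m (by omega)
        positivity
  refine ⟨hpos, ?_⟩
  intro k n hn
  refine att_unif (d := d) (p := fun n => x n * x (n + d))
    (fun n => mul_pos (hpos n) (hpos (n + d))) ?_ k n hn
  intro n
  have e1 : n + 2 * d + d = n + 3 * d := by ring
  have e2 : n + d + d = n + 2 * d := by ring
  change x (n + 2 * d) * x (n + 2 * d + d) = 1 + x (n + d) * x (n + d + d) / (x n * x (n + d))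
  rw [e1, e2, h n]
  have := hpos n
  have := hpos (n + d)
  have := hpos (n + 2 * d)
  field_simp

/-- **Uniform attraction over all positive initial data.** -/
theorem att_eps {d : ℕ} (hd : 0 < d) {ε : ℝ} (hε : 0 < ε) :
    ∃ N : ℕ, ∀ x : ℕ → ℝ, (∀ n < 3 * d, 0 < x n) →
      (∀ n, x (n + 3 * d) = 1 / x (n + 2 * d) + 1 / x n) →
      ∀ n, N ≤ n → |x n * x (n + d) - 2| < ε := by
  obtain ⟨k, hk⟩ := exists_pow_lt_of_lt_one hε (by norm_num : (3 / 5 : ℝ) < 1)
  exact ⟨(8 + 3 * k) * d, fun x h0 h n hn => lt_of_le_of_lt ((att_sol hd h0 h).2 k n hn) hk⟩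

end Pool.Agent.Lib_helper83.RBO
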